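import Pool.Agent.H46.VIO.Stmts
import Pool.Agent.H71.ABY.KNY

/-!
# VIO, module KNV: choice of the known primes of a triple, from the real knapsack KRV
-/

set_option autoImplicit false

namespace Pool.VIO

open Finset Pool.Agent.H98.ABCR Pool.SHA Pool.ABY

namespace KNV85

open Pool.ABY.KNY71

open Classical in
/-- the coordinate divisible by `q` -/
noncomputable def iv (v : ℕ × ℕ) (q : ℕ) : Fin 3 :=
  if q ∣ coord v 0 then 0 else if q ∣ coord v 1 then 1 else 2

lemma iv_eq (v : ℕ × ℕ) (hv : IsTri v) (q : ℕ) (hq : q.Prime) (r : Fin 3) (h : q ∣ coord v r) :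
    iv v q = r := by
  have key : ∀ s, s ≠ r → ¬ q ∣ coord v s := by
    intro s hs hd
    have h1 := Nat.dvd_gcd hd h
    rw [cop v hv s r hs] at h1
    exact hq.one_lt.ne' (Nat.dvd_one.mp h1)
  unfold iv
  fin_cases r
  · have h0 : q ∣ coord v 0 := h
    rw [if_pos h0]; rfl
  · have h0 : ¬ q ∣ coord v 0 := key 0 (by decide)
    have h1 : q ∣ coord v 1 := h
    rw [if_neg h0, if_pos h1]; rfl
  · have h0 : ¬ q ∣ coord v 0 := key 0 (by decide)
    have h1 : ¬ q ∣ coord v 1 := key 1 (by decide)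
    rw [if_neg h0, if_neg h1]; rfl

lemma fz (v : ℕ × ℕ) (hv : IsTri v) (q : ℕ) (hq : q.Prime) (s : Fin 3) (h : iv v q ≠ s) :
    (coord v s).factorization q = 0 := by
  apply Nat.factorization_eq_zero_of_not_dvd
  intro hd
  exact h (iv_eq v hv q hq s hd)

/-- total exponent -/
noncomputable def E (v : ℕ × ℕ) (q : ℕ) : ℝ := ∑ s : Fin 3, ((coord v s).factorization q : ℝ)

lemma E_eq (v : ℕ × ℕ) (hv : IsTri v) (q : ℕ) (hq : q.Prime) (s : Fin 3) (h : iv v q = s) :
    E v q = ((coord v s).factorization q : ℝ) := by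
  unfold E
  rw [Finset.sum_eq_single s]
  · intro t _ ht
    rw [fz v hv q hq t (by rw [h]; exact ht.symm)]
    simp
  · intro hn; exact absurd (Finset.mem_univ _) hn

lemma E_nonneg (v : ℕ × ℕ) (q : ℕ) : 0 ≤ E v q :=
  Finset.sum_nonneg fun _ _ => Nat.cast_nonneg _

/-- mass of the primes of `K` -/
lemma sum_E (v : ℕ × ℕ) (K : Finset ℕ) :
    ∑ q ∈ K, E v q * Real.log q = ∑ s : Fin 3, kl K (coord v s) := by
  unfold kl E
  rw [Finset.sum_comm]
  apply Finset.sum_congr rfl
  intro q _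
  rw [Finset.sum_mul]

open Classical in
lemma sum_E_filter (v : ℕ × ℕ) (hv : IsTri v) (K : Finset ℕ) (hK : ∀ q ∈ K, q.Prime) (t : Fin 3) :
    ∑ q ∈ K.filter (fun q => iv v q = t), E v q * Real.log q = kl K (coord v t) := by
  unfold kl
  rw [Finset.sum_filter]
  apply Finset.sum_congr rfl
  intro q hq
  split_ifs with h
  · rw [E_eq v hv q (hK q hq) t h]
  · rw [fz v hv q (hK q hq) t h]; simp

lemma prod_le_rpow (K : Finset ℕ) (hK : ∀ q ∈ K, q.Prime) (X a : ℝ) (hX : 1 < X)
    (h : ∑ q ∈ K, Real.log (q : ℝ) / Real.log X ≤ a) :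
    ((∏ q ∈ K, q : ℕ) : ℝ) ≤ X ^ a := by
  have hL : 0 < Real.log X := Real.log_pos hX
  have hpos : (0 : ℝ) < ((∏ q ∈ K, q : ℕ) : ℝ) := by
    exact_mod_cast Finset.prod_pos (fun q hq => (hK q hq).pos)
  rw [← Finset.sum_div, div_le_iff₀ hL] at h
  have h2 : Real.log ((∏ q ∈ K, q : ℕ) : ℝ) = ∑ q ∈ K, Real.log (q : ℝ) := LK_log K hK
  rw [← Real.exp_log hpos, Real.rpow_def_of_pos (by linarith)]
  apply Real.exp_le_exp.mpr
  rw [h2]
  linarith

open Classical in
/-- the light part -/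
lemma lig_eq (v : ℕ × ℕ) (hv : IsTri v) (X η : ℝ) (hX : 1 < X) (K : Finset ℕ) (t : Fin 3) :
    lig X η K t v = ∑ q ∈ (nn v).primeFactors.filter
      (fun q => q ∉ K ∧ iv v q ≠ t ∧ Real.log (q : ℝ) / Real.log X ≤ η), E v q * Real.log q := by
  have hL : 0 < Real.log X := Real.log_pos hX
  have hcond : ∀ q : ℕ, q.Prime → ((q : ℝ) ≤ X ^ η ↔ Real.log (q : ℝ) / Real.log X ≤ η) := by
    intro q hq
    have hqp : (0 : ℝ) < q := by exact_mod_cast hq.pos
    rw [div_le_iff₀ hL, Real.rpow_def_of_pos (by linarith)]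
    rw [mul_comm η]
    exact (Real.log_le_iff_le_exp hqp).symm
  unfold lig
  have h1 : ∀ s ∈ (univ : Finset (Fin 3)).erase t,
      ∑ q ∈ (coord v s).primeFactors.filter (fun q => q ∉ K ∧ (q : ℝ) ≤ X ^ η),
        ((coord v s).factorization q : ℝ) * Real.log q =
      ∑ q ∈ (nn v).primeFactors.filter (fun q => q ∉ K ∧ Real.log (q : ℝ) / Real.log X ≤ η),
        ((coord v s).factorization q : ℝ) * Real.log q := by
    intro s _
    apply Finset.sum_subset_zero_on_sdiff
    · intro q hq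
      rw [Finset.mem_filter] at hq ⊢
      have hqp := Nat.prime_of_mem_primeFactors hq.1
      exact ⟨A_sub v hv s hq.1, hq.2.1, (hcond q hqp).mp hq.2.2⟩
    · intro q hq
      rw [Finset.mem_sdiff, Finset.mem_filter, Finset.mem_filter] at hq
      have hqp := Nat.prime_of_mem_primeFactors hq.1.1
      have h2 : q ∉ (coord v s).primeFactors := by
        intro hm
        exact hq.2 ⟨hm, hq.1.2.1, (hcond q hqp).mpr hq.1.2.2⟩
      rw [← Nat.support_factorization, Finsupp.notMem_support_iff] at h2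
      rw [h2]; simp
    · intro q _; rfl
  rw [Finset.sum_congr rfl h1, Finset.sum_comm]
  rw [← Finset.sum_subset (s₁ := (nn v).primeFactors.filter
      (fun q => q ∉ K ∧ iv v q ≠ t ∧ Real.log (q : ℝ) / Real.log X ≤ η))
      (s₂ := (nn v).primeFactors.filter (fun q => q ∉ K ∧ Real.log (q : ℝ) / Real.log X ≤ η))]
  · apply Finset.sum_congr rfl
    intro q hq
    rw [Finset.mem_filter] at hq
    have hqp := Nat.prime_of_mem_primeFactors hq.1
    rw [← Finset.sum_mul]
    congr 1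
    unfold E
    rw [← Finset.add_sum_erase _ _ (Finset.mem_univ t), fz v hv q hqp t hq.2.2.1]
    simp
  · intro q hq
    rw [Finset.mem_filter] at hq ⊢
    exact ⟨hq.1, hq.2.1, hq.2.2.2⟩
  · intro q hq hq2
    rw [Finset.mem_filter] at hq hq2
    have hqp := Nat.prime_of_mem_primeFactors hq.1
    have hiv : iv v q = t := by
      by_contra hc
      exact hq2 ⟨hq.1, hq.2.1, hc, hq.2.2⟩
    apply Finset.sum_eq_zero
    intro s hs
    rw [fz v hv q hqp s (by rw [hiv]; exact (Finset.ne_of_mem_erase hs).symm)]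
    simp

end KNV85

open KNV85 Pool.ABY.KNY71 in
open Classical in
theorem knv_thm (hKRV : S_KRV) : S_KNV := by
  intro τ hτ hτ1
  obtain ⟨c0, η, hc0, hc01, hη, hη1, hrest⟩ := hKRV τ hτ hτ1
  refine ⟨c0, η, hc0, hc01, hη, hη1, ?_⟩
  intro lam hlam
  obtain ⟨δ, hδ, hδ1, hkr⟩ := hrest lam hlam
  refine ⟨δ, hδ, hδ1, ?_⟩
  intro X v hX hv hRR hh1
  have hX1 : 1 < X := by linarith
  have hL : 0 < Real.log X := Real.log_pos hX1
  have hinv : 1 ≤ 1 / δ := by rw [le_div_iff₀ hδ]; linarith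
  have hh0 : 0 < hh v := by linarith
  have hlog2 : Real.log 2 ≤ δ * hh v := by
    have h1 : Real.log 2 ≤ 1 := by
      have := Real.log_two_lt_d9; linarith
    have h2 : 1 ≤ δ * hh v := by
      rw [div_le_iff₀ hδ] at hh1; linarith
    linarith
  set S : Finset ℕ := (nn v).primeFactors with hS
  have hSp : ∀ q ∈ S, q.Prime := fun q hq => Nat.prime_of_mem_primeFactors hq
  set c : ℕ → ℝ := fun q => Real.log (q : ℝ) / Real.log X with hc
  set μ : ℕ → ℝ := fun q => E v q * Real.log (q : ℝ) / hh v with hμ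
  set ν : ℝ := (hh v - Real.log ((min v.1 v.2 : ℕ) : ℝ)) / hh v with hν
  have hsumμ : ∀ K : Finset ℕ, ∑ q ∈ K, μ q = (∑ s : Fin 3, kl K (coord v s)) / hh v := by
    intro K
    rw [← sum_E, Finset.sum_div]
  have hsumμf : ∀ K : Finset ℕ, (∀ q ∈ K, q.Prime) → ∀ t : Fin 3,
      ∑ q ∈ K.filter (fun q => iv v q = t), μ q = kl K (coord v t) / hh v := by
    intro K hK t
    rw [← sum_E_filter v hv K hK t, Finset.sum_div]
  have hfull : ∀ t : Fin 3, kl S (coord v t) = Real.log (coord v t) :=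
    fun t => kl_full S _ (A_sub v hv t)
  have hmin : 0 ≤ hh v - Real.log ((min v.1 v.2 : ℕ) : ℝ) := by
    have h1 : 0 < min v.1 v.2 := by
      obtain ⟨ha, hb, _⟩ := hv
      exact lt_min ha hb
    have h2 : Real.log ((min v.1 v.2 : ℕ) : ℝ) ≤ hh v := by
      unfold hh
      apply Real.log_le_log (by exact_mod_cast h1)
      have : min v.1 v.2 ≤ v.1 + v.2 := (min_le_left _ _).trans (Nat.le_add_right _ _)
      exact_mod_cast this
    linarith
  -- the two large coordinates
  obtain ⟨s1, s2, hs12, hs1, hs2⟩ : ∃ s1 s2 : Fin 3, s1 ≠ s2 ∧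
      (1 - δ) * hh v ≤ Real.log (coord v s1) ∧ (1 - δ) * hh v ≤ Real.log (coord v s2) := by
    have h2 : (1 - δ) * hh v ≤ Real.log (coord v 2) := by
      have e2 : coord v 2 = v.1 + v.2 := rfl
      have hhd : hh v = Real.log ((v.1 + v.2 : ℕ) : ℝ) := rfl
      rw [e2, ← hhd]
      nlinarith
    rcases le_total v.1 v.2 with h | h
    · refine ⟨1, 2, by decide, ?_, h2⟩
      have e1 : coord v 1 = v.2 := rfl
      have := log_le_of v.2 v.1 hv.2.1 hv.1 h
      rw [e1]
      have hhd : hh v = Real.log ((v.2 + v.1 : ℕ) : ℝ) := by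
        rw [add_comm]; rfl
      rw [← hhd] at this
      linarith
    · refine ⟨0, 2, by decide, ?_, h2⟩
      have e0 : coord v 0 = v.1 := rfl
      have := log_le_of v.1 v.2 hv.1 hv.2.1 h
      rw [e0]
      have hhd : hh v = Real.log ((v.1 + v.2 : ℕ) : ℝ) := rfl
      rw [← hhd] at this
      linarith
  have hcpos : ∀ q ∈ S, 0 < c q := by
    intro q hq
    have : 1 < (q : ℝ) := by exact_mod_cast (hSp q hq).one_lt
    exact div_pos (Real.log_pos this) hL
  obtain ⟨K, hKS, hK⟩ := hkr S c μ (iv v) ν s1 s2 hs12 hcpos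
    (fun q _ => div_nonneg (mul_nonneg (E_nonneg v q) (log_nonneg' q)) hh0.le)
    (div_nonneg hmin hh0.le)
    (by
      rw [← Finset.sum_div, div_le_one hL]
      have h1 : Real.log (RR v : ℝ) = ∑ q ∈ S, Real.log (q : ℝ) := log_rad (nn v)
      rw [← h1]
      apply Real.log_le_log _ hRR
      have : 0 < RR v := Finset.prod_pos (fun q hq => (Nat.prime_of_mem_primeFactors hq).pos)
      exact_mod_cast this)
    (by
      rw [hsumμ, ← add_div, le_div_iff₀ hh0]
      have h1 := sum_log v hv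
      have h2 : ∑ s : Fin 3, kl S (coord v s) = ∑ s : Fin 3, Real.log (coord v s : ℝ) :=
        Finset.sum_congr rfl (fun s _ => hfull s)
      rw [h2]
      linarith)
    (by
      intro r
      rw [hsumμf S hSp r, hfull r, div_le_one hh0]
      exact log_coord_le v hv r)
    (by
      rw [hsumμf S hSp s1, hfull s1, le_div_iff₀ hh0]
      exact hs1)
    (by
      rw [hsumμf S hSp s2, hfull s2, le_div_iff₀ hh0]
      exact hs2)
  have hKp : ∀ q ∈ K, q.Prime := fun q hq => hSp q (hKS hq)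
  refine ⟨K, hKS, ?_⟩
  rcases hK with ⟨h1, h2⟩ | ⟨h1, t, h2, h3⟩ | ⟨h1, t, h2, h3⟩ | ⟨t, T, hTK, h1, h2, h3, h4⟩
  · left
    refine ⟨prod_le_rpow K hKp X _ hX1 h1, ?_⟩
    rw [hsumμ, ← add_div, le_div_iff₀ hh0] at h2
    unfold mass
    exact h2
  · right; left
    refine ⟨prod_le_rpow K hKp X _ hX1 h1, t, ?_, ?_⟩
    · rw [hsumμf K hKp t, le_div_iff₀ hh0] at h2
      exact h2
    · rw [lig_eq v hv X η hX1 K t]
      apply le_of_eq
      apply Finset.sum_eq_zero
      intro q hq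
      rw [Finset.mem_filter] at hq
      have := h3 q hq.1 hq.2.1 hq.2.2.1
      exact absurd hq.2.2.2 (not_le.mpr this)
  · right; right; left
    refine ⟨prod_le_rpow K hKp X _ hX1 h1, t, ?_, ?_⟩
    · rw [hsumμf K hKp t, le_div_iff₀ hh0] at h2
      exact h2
    · rw [lig_eq v hv X η hX1 K t]
      rw [← Finset.sum_div, div_le_iff₀ hh0] at h3
      exact h3
  · right; right; right
    have hTp : ∀ q ∈ T, q.Prime := fun q hq => hKp q (hTK hq)
    refine ⟨t, T, hTK, ?_, ?_, ?_⟩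
    · have hKpos : (0 : ℝ) < ((∏ q ∈ K, q : ℕ) : ℝ) := by
        exact_mod_cast Finset.prod_pos (fun q hq => (hKp q hq).pos)
      have hTpos : (0 : ℝ) < ((∏ q ∈ T, q : ℕ) : ℝ) := by
        exact_mod_cast Finset.prod_pos (fun q hq => (hTp q hq).pos)
      have e1 : Real.log ((∏ q ∈ K, q : ℕ) : ℝ) = ∑ q ∈ K, Real.log (q : ℝ) := LK_log K hKp
      have e2 : Real.log ((∏ q ∈ T, q : ℕ) : ℝ) = ∑ q ∈ T, Real.log (q : ℝ) := LK_log T hTp
      rw [← Finset.sum_div, ← Finset.sum_div, ← add_div, div_le_iff₀ hL] at h2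
      rw [← Real.exp_log (mul_pos hKpos hTpos), Real.rpow_def_of_pos (by linarith)]
      apply Real.exp_le_exp.mpr
      rw [Real.log_mul hKpos.ne' hTpos.ne', e1, e2]
      linarith
    · have h5 : T.filter (fun q => iv v q = t) = T := by
        apply Finset.filter_true_of_mem
        intro q hq
        exact h1 q hq
      have h6 := hsumμf T hTp t
      rw [h5] at h6
      rw [h6, le_div_iff₀ hh0] at h3
      exact h3
    · intro s hs q hq hqK
      have hqS : q ∈ S := A_sub v hv s hq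
      have hqp := hSp q hqS
      have hiv : iv v q = s := iv_eq v hv q hqp s (Nat.dvd_of_mem_primeFactors hq)
      have h5 := h4 q hqS hqK (by rw [hiv]; exact hs)
      have hlq : 0 < Real.log (q : ℝ) := Real.log_pos (by exact_mod_cast hqp.one_lt)
      simp only [hμ, hc] at h5
      rw [E_eq v hv q hqp s hiv] at h5
      set e : ℝ := ((coord v s).factorization q : ℝ) with he
      have h6 : e * Real.log (q : ℝ) / hh v - 3 * (Real.log (q : ℝ) / Real.log X) =
          (e * Real.log X - 3 * hh v) * (Real.log (q : ℝ) / (hh v * Real.log X)) := by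
        field_simp
      rw [h6, abs_mul, abs_of_pos (div_pos hlq (mul_pos hh0 hL))] at h5
      have h7 : τ * (Real.log (q : ℝ) / Real.log X) =
          (τ * hh v) * (Real.log (q : ℝ) / (hh v * Real.log X)) := by
        field_simp
      rw [h7] at h5
      exact le_of_mul_le_mul_right h5 (div_pos hlq (mul_pos hh0 hL))

end Pool.VIO
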